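import Mathlib

/-!
# Determinants of three differences of points of `{0,1}² × {0, ..., m}`
-/

set_option autoImplicit false

namespace H42SN

private theorem minors : ∀ a ∈ Finset.Icc (-1 : ℤ) 1, ∀ b ∈ Finset.Icc (-1 : ℤ) 1, ∀ c ∈ Finset.Icc (-1 : ℤ) 1,
    ∀ d ∈ Finset.Icc (-1 : ℤ) 1, ∀ e ∈ Finset.Icc (-1 : ℤ) 1, ∀ f ∈ Finset.Icc (-1 : ℤ) 1,
    |c * f - d * e| + |a * f - b * e| + |a * d - b * c| ≤ 4 := by
  decide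

/-- A `3 × 3` matrix of integers whose first two columns are in `{-1, 0, 1}` and whose third column is bounded by `m`
has determinant at most `4 m`. -/
theorem det_box (m : ℤ) (w : Matrix (Fin 3) (Fin 3) ℤ) (h0 : ∀ i, |w i 0| ≤ 1) (h1 : ∀ i, |w i 1| ≤ 1)
    (h2 : ∀ i, |w i 2| ≤ m) : |w.det| ≤ 4 * m := by
  have hm : 0 ≤ m := (abs_nonneg _).trans (h2 0)
  have mem : ∀ i j, |w i j| ≤ 1 → w i j ∈ Finset.Icc (-1 : ℤ) 1 := fun i j h => Finset.mem_Icc.2 (abs_le.1 h)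
  have hM := minors _ (mem 0 0 (h0 0)) _ (mem 0 1 (h1 0)) _ (mem 1 0 (h0 1)) _ (mem 1 1 (h1 1)) _
    (mem 2 0 (h0 2)) _ (mem 2 1 (h1 2))
  rw [Matrix.det_fin_three]
  have h3 : w 0 0 * w 1 1 * w 2 2 - w 0 0 * w 1 2 * w 2 1 - w 0 1 * w 1 0 * w 2 2 + w 0 1 * w 1 2 * w 2 0 +
      w 0 2 * w 1 0 * w 2 1 - w 0 2 * w 1 1 * w 2 0 =
      w 0 2 * (w 1 0 * w 2 1 - w 1 1 * w 2 0) - w 1 2 * (w 0 0 * w 2 1 - w 0 1 * w 2 0) +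
        w 2 2 * (w 0 0 * w 1 1 - w 0 1 * w 1 0) := by ring
  rw [h3]
  have k0 : |w 0 2 * (w 1 0 * w 2 1 - w 1 1 * w 2 0)| ≤ m * |w 1 0 * w 2 1 - w 1 1 * w 2 0| := by
    rw [abs_mul]
    exact mul_le_mul_of_nonneg_right (h2 0) (abs_nonneg _)
  have k1 : |w 1 2 * (w 0 0 * w 2 1 - w 0 1 * w 2 0)| ≤ m * |w 0 0 * w 2 1 - w 0 1 * w 2 0| := by
    rw [abs_mul]
    exact mul_le_mul_of_nonneg_right (h2 1) (abs_nonneg _)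
  have k2 : |w 2 2 * (w 0 0 * w 1 1 - w 0 1 * w 1 0)| ≤ m * |w 0 0 * w 1 1 - w 0 1 * w 1 0| := by
    rw [abs_mul]
    exact mul_le_mul_of_nonneg_right (h2 2) (abs_nonneg _)
  have k3 : |w 0 2 * (w 1 0 * w 2 1 - w 1 1 * w 2 0) - w 1 2 * (w 0 0 * w 2 1 - w 0 1 * w 2 0) +
        w 2 2 * (w 0 0 * w 1 1 - w 0 1 * w 1 0)| ≤ |w 0 2 * (w 1 0 * w 2 1 - w 1 1 * w 2 0)| +
        |w 1 2 * (w 0 0 * w 2 1 - w 0 1 * w 2 0)| + |w 2 2 * (w 0 0 * w 1 1 - w 0 1 * w 1 0)| :=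
    (abs_add_le _ _).trans (add_le_add_left (abs_sub _ _) _)
  have k4 := mul_le_mul_of_nonneg_left hM hm
  linarith

end H42SN
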