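import Pool.Agent.Lib.H43SN.W
import Pool.Agent.Lib.H42SN.Box

/-!
# The configurations `simplex × {0,1}² × {0, ..., m}`
-/

set_option autoImplicit false

namespace H42SN

/-- The points of `{0,1}² × {0, ..., m}`. -/
def bp (m : ℕ) (s : Fin 2 × Fin 2 × Fin (m + 1)) : Fin 3 → ℤ := ![(s.1 : ℕ), (s.2.1 : ℕ), (s.2.2 : ℕ)]

theorem bp_inj (m : ℕ) : Function.Injective (bp m) := by
  rintro ⟨a, b, c⟩ ⟨a', b', c'⟩ h
  have h0 := congrFun h 0
  have h1 := congrFun h 1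
  have h2 := congrFun h 2
  simp only [bp, Matrix.cons_val_zero, Matrix.cons_val_one, Matrix.cons_val_two, Matrix.tail_cons,
    Matrix.head_cons, Nat.cast_inj] at h0 h1 h2
  rw [Fin.ext h0, Fin.ext h1, Fin.ext h2]

/-- The set `{0,1}² × {0, ..., m}`. -/
def boxSet (m : ℕ) : Finset (Fin 3 → ℤ) := Finset.univ.image (bp m)

theorem card_boxSet (m : ℕ) : (boxSet m).card = 4 * (m + 1) := by
  rw [boxSet, Finset.card_image_of_injective _ (bp_inj m), Finset.card_univ]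
  simp
  ring

theorem mem_boxSet {m : ℕ} {y : Fin 3 → ℤ} (h : y ∈ boxSet m) :
    (0 ≤ y 0 ∧ y 0 ≤ 1) ∧ (0 ≤ y 1 ∧ y 1 ≤ 1) ∧ (0 ≤ y 2 ∧ y 2 ≤ m) := by
  obtain ⟨s, -, rfl⟩ := Finset.mem_image.1 h
  have h0 := s.1.2
  have h1 := s.2.1.2
  have h2 := s.2.2.2
  have e0 : bp m s 0 = ((s.1 : ℕ) : ℤ) := rfl
  have e1 : bp m s 1 = ((s.2.1 : ℕ) : ℤ) := rfl
  have e2 : bp m s 2 = ((s.2.2 : ℕ) : ℤ) := rfl
  rw [e0, e1, e2]
  omega

theorem box_config (a m : ℕ) (hm : 1 ≤ m) (n : ℕ) (h1 : a + 3 + 1 ≤ n) (h2 : n ≤ 4 * (a + 1) * (m + 1)) :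
    ∃ X : Fin n → Fin (a + 3) → ℤ, Function.Injective X ∧
      affineSpan ℝ (Set.range fun i => H43SN.cast (X i)) = ⊤ ∧
      ∀ u : Fin (a + 3 + 1) → Fin n,
        |(Matrix.of fun i j : Fin (a + 3) => X (u i.succ) j - X (u 0) j).det| ≤ 4 * m := by
  have mem : ∀ x : Fin 2 × Fin 2 × Fin (m + 1), bp m x ∈ boxSet m := fun x =>
    Finset.mem_image.2 ⟨x, Finset.mem_univ _, rfl⟩
  refine H43SN.exists_config (a := a) (b := 3) (boxSet m) (4 * m) ⟨_, mem (0, 0, 0)⟩ ?_ ?_ n h1 ?_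
  · intro u v hu hv
    refine det_box (m : ℤ) _ (fun i => ?_) (fun i => ?_) (fun i => ?_)
    · have k1 := mem_boxSet (hu i)
      have k2 := mem_boxSet (hv i)
      rw [Matrix.of_apply, abs_le]
      constructor <;> linarith [k1.1.1, k1.1.2, k2.1.1, k2.1.2]
    · have k1 := mem_boxSet (hu i)
      have k2 := mem_boxSet (hv i)
      rw [Matrix.of_apply, abs_le]
      constructor <;> linarith [k1.2.1.1, k1.2.1.2, k2.2.1.1, k2.2.1.2]
    · have k1 := mem_boxSet (hu i)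
      have k2 := mem_boxSet (hv i)
      rw [Matrix.of_apply, abs_le]
      constructor <;> linarith [k1.2.2.1, k1.2.2.2, k2.2.2.1, k2.2.2.2]
  · refine ⟨fun l => ![bp m (1, 0, 0), bp m (0, 1, 0), bp m (0, 0, ⟨1, by omega⟩)] l, fun _ => bp m (0, 0, 0),
      fun l => ?_, fun _ => mem _, ?_⟩
    · fin_cases l
      · exact mem _
      · exact mem _
      · exact mem _
    · rw [Matrix.det_fin_three]
      simp [bp]
  · rw [card_boxSet]
    calc n ≤ 4 * (a + 1) * (m + 1) := h2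
      _ = (a + 1) * (4 * (m + 1)) := by ring

/-- For `8 m + 9 ≤ 3 d` the bound `4 m` is smaller than `[(n - 1) / d]`, `n = 4 (d - 2) (m + 1)`. -/
theorem box_arith (d m : ℕ) (h : 8 * m + 9 ≤ 3 * d) : 4 * m < (4 * (d - 2) * (m + 1) - 1) / d := by
  obtain ⟨c, rfl⟩ : ∃ c, d = 2 + c := ⟨d - 2, by omega⟩
  rw [Nat.lt_iff_add_one_le, Nat.le_div_iff_mul_le (by omega)]
  have : 2 + c - 2 = c := by omega
  rw [this]
  refine Nat.le_sub_of_add_le ?_
  nlinarith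

end H42SN
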